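import Mathlib
import Pool.Agent.U309.ZF.Stm4

/-!
Project ZF3 (helper309), part EDGE: the logarithmic derivative of the L-function of a newform is bounded from
above near the edge of the region of absolute convergence.
-/

set_option autoImplicit false

open NumberField IsDedekindDomain UpperHalfPlane MatrixGroups CongruenceSubgroup Filter Topology
open scoped TensorProduct

namespace Pool.Agent.U140.ZF

open Pool.Agent.U309.ZF

theorem t_EDGE : Pool.Agent.U309.ZF.S_EDGE := by
  intro hLC a b N _ f w hab hf hne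
  obtain ⟨L, C, hC, hL, hnz, -, hW⟩ := hLC a b N f w hab hf
  have hL0 : L (3 / 2) ≠ 0 := hne L hL
  have hnz' : ∀ δ ∈ Set.Icc (0 : ℝ) 1, L ((3 / 2 + δ : ℝ) : ℂ) ≠ 0 := by
    intro δ hδ
    rcases eq_or_lt_of_le hδ.1 with h | h
    · rw [← h]
      have h1 : ((3 / 2 + 0 : ℝ) : ℂ) = 3 / 2 := by push_cast; ring
      rw [h1]
      exact hL0
    · apply hnz
      rw [Complex.ofReal_re]
      linarith
  have hcont : ContinuousOn (fun δ : ℝ => (logDeriv L ((3 / 2 + δ : ℝ) : ℂ)).re)
      (Set.Icc 0 1) := by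
    have hd : Continuous (deriv L) := (hL.1.contDiff (n := 1)).continuous_deriv le_rfl
    have hc : Continuous L := hL.1.continuous
    have hcast : Continuous fun δ : ℝ => ((3 / 2 + δ : ℝ) : ℂ) :=
      Complex.continuous_ofReal.comp (continuous_const.add continuous_id)
    have h1 : ContinuousOn
        (fun δ : ℝ => deriv L ((3 / 2 + δ : ℝ) : ℂ) / L ((3 / 2 + δ : ℝ) : ℂ)) (Set.Icc 0 1) :=
      (hd.comp hcast).continuousOn.div (hc.comp hcast).continuousOn hnz'
    exact Complex.continuous_re.comp_continuousOn h1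
  obtain ⟨M, hM⟩ := isCompact_Icc.bddAbove_image hcont
  refine ⟨max 1 (C + M), lt_max_of_lt_left one_pos, fun δ h0 h1 => ?_⟩
  have h2 := hW δ h0 h1
  have h3 : (logDeriv L ((3 / 2 + δ : ℝ) : ℂ)).re ≤ M := hM ⟨δ, ⟨h0.le, h1⟩, rfl⟩
  have h4 := (abs_le.1 h2).1
  have h5 := le_max_right 1 (C + M)
  linarith

end Pool.Agent.U140.ZF
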